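import Pool.Agent.Helper52_ABA.LStmts

/-! # ABL, module FAN -/

namespace Pool.Agent.ABA.B.H81

open Pool.Agent.ABA.B Pool.Agent.ABA.B.TG

theorem fan (hins : InsStmt) (hadd : AddStmt) (hcol : ColStmt) : FanStmt := by
  intro V E S x α β φ e g n hf
  constructor
  · intro hD
    induction hf generalizing α n with
    | nil e => simpa using hD
    | @cons e h e' g φ ht hf ih =>
      have h1 := hadd V E S x α β e h e' n hD ht
      have h2 := ih (α ++ [h]) (n + 1) (by simpa using h1)
      simpa [add_assoc, add_comm, add_left_comm] using h2
  · intro hP hD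
    induction hf generalizing α n with
    | nil e =>
      have h0 : S.D (S.src e) [e, S.inv e] 0 := by
        simpa using D.br (S := S) (e := e) (D.nil (S.tgt e)) (D.nil (S.src e))
      have h1 := hins V E S x (S.src e) α β [e, S.inv e] n 0 (by simpa using hD) hP h0
      simpa using h1
    | @cons e h e' g φ ht hf ih =>
      have hP' : S.IsP x (α ++ [h]) (S.src e') := by
        rw [isP_append]
        refine ⟨S.src e, hP, ?_⟩
        exact ⟨Tri.src' ht, (Tri.mid' ht).symm⟩
      have h1 := ih (α ++ [h]) n hP' (by simpa using hD)
      have h2 := hcol V E S x α (S.inv g :: β) e h e' (n + φ.length) (by simpa using h1) ht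
      simpa [add_assoc] using h2

end Pool.Agent.ABA.B.H81
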